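import Pool.Agent.H95.OpenSg

set_option autoImplicit false
open Filter Topology Metric Set

theorem Pool.Agent.Results.MP_b2b51b_an.NoLim.result :
    ∃ (A : Type) (_ : NormedCommRing A) (_ : NormedAlgebra ℂ A),
      CompleteSpace A ∧ ‖(1 : A)‖ = 1 ∧ ∃ S : Set A, IsOpen S ∧ (∀ x ∈ S, ∀ y ∈ S, x * y ∈ S) ∧
        S ≠ univ ∧ ∃ a ∈ S, ¬ ∃ L : ℝ,
          Tendsto (fun n : ℕ => infDist (a ^ n) Sᶜ ^ (1 / n : ℝ)) atTop (𝓝 L) :=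
  Pool.Agent.H95.OpenSg.main
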